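import Pool.Agent.Helper17.CR.Stmts

set_option autoImplicit false

namespace Pool.Agent.Helper67.CR

open Pool.Agent.Helper17.CR Finset

universe u

theorem st_ABQ : ST_ABQ.{u} := by
  intro G _ _ A hA hcyc hcent x y
  apply hcent
  rw [Subgroup.mem_centralizer_iff]
  intro a ha
  have hcomm : ∀ f g : MulAut A, f * g = g * f := by
    intro f g
    apply (IsCyclic.mulAutMulEquiv A).injective
    rw [map_mul, map_mul, mul_comm]
  have h1 : MulAut.conjNormal (H := A) (x * y * x⁻¹ * y⁻¹) = 1 := by
    rw [map_mul, map_mul, map_mul, hcomm (MulAut.conjNormal x), map_inv, map_inv]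
    group
  have h2 := congrArg (fun e : MulAut A => ((e ⟨a, ha⟩ : A) : G)) h1
  simp only [MulAut.conjNormal_apply, MulAut.one_apply] at h2
  rw [mul_inv_eq_iff_eq_mul] at h2
  exact h2.symm

end Pool.Agent.Helper67.CR
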