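import Pool.Agent.Helper17.CR.Stmts

set_option autoImplicit false

namespace Pool.Agent.Helper67.CR

open Pool.Agent.Helper17.CR Finset

universe u

theorem st_OP : ST_OP.{u} := by
  intro G _ _ p _
  have hfin : ({F : Subgroup G | F.Normal ∧ IsPGroup p F} : Set (Subgroup G)).Finite :=
    Set.toFinite _
  have hne : ({F : Subgroup G | F.Normal ∧ IsPGroup p F} : Set (Subgroup G)).Nonempty :=
    ⟨⊥, inferInstance, IsPGroup.of_bot⟩
  obtain ⟨F, hF⟩ := hfin.exists_maximal hne
  refine ⟨F, hF.1.1, hF.1.2, ?_⟩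
  intro N hN hNp
  have i1 := hF.1.1
  have i2 := hN
  have h1 : (F ⊔ N : Subgroup G) ∈ ({F : Subgroup G | F.Normal ∧ IsPGroup p F} : Set (Subgroup G)) :=
    ⟨inferInstance, hF.1.2.to_sup_of_normal_right hNp⟩
  exact le_trans le_sup_right (hF.2 h1 le_sup_left)

end Pool.Agent.Helper67.CR
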