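import Pool.Agent.Helper17.CR.Stmts

set_option autoImplicit false

namespace Pool.Agent.Helper67.CR

open Pool.Agent.Helper17.CR Finset

universe u

theorem st_PAR : ST_PAR.{u} := by
  intro X _ _ _ lam k θ σ hC
  obtain ⟨x⟩ := (inferInstance : Nonempty X)
  have hr : (univ.filter (fun y => x ∈ θ y)).card = k := by
    rw [← hC.card x]
    refine Finset.card_bij' (fun y _ => σ y) (fun z _ => σ.symm z) ?_ ?_ ?_ ?_
    · intro y hy
      exact (hC.cor x y).1 (Finset.mem_filter.1 hy).2
    · intro z hz
      rw [Finset.mem_filter]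
      refine ⟨Finset.mem_univ _, (hC.cor x _).2 ?_⟩
      simpa using hz
    · intro y _
      simp
    · intro z _
      simp
  have h1 : ∑ x' : X, (univ.filter (fun y => x ∈ θ y ∧ x' ∈ θ y)).card
      = ∑ y ∈ univ.filter (fun y => x ∈ θ y), (θ y).card := by
    have e1 : ∀ x' : X, (univ.filter (fun y => x ∈ θ y ∧ x' ∈ θ y)).card
        = ∑ y ∈ univ.filter (fun y => x ∈ θ y), if x' ∈ θ y then 1 else 0 := by
      intro x'
      rw [← Finset.filter_filter, Finset.card_filter]
    simp only [e1]
    rw [Finset.sum_comm]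
    apply Finset.sum_congr rfl
    intro y _
    rw [Finset.sum_boole]
    simp
  have h2 : ∑ y ∈ univ.filter (fun y => x ∈ θ y), (θ y).card = k * k := by
    rw [Finset.sum_congr rfl (fun y _ => hC.card y), Finset.sum_const, hr, smul_eq_mul]
  have h3 : ∑ x' : X, (univ.filter (fun y => x ∈ θ y ∧ x' ∈ θ y)).card
      = k + (Fintype.card X - 1) * lam := by
    rw [← Finset.add_sum_erase univ _ (Finset.mem_univ x)]
    congr 1
    · rw [← hr]
      congr 1
      ext y
      simp
    · rw [Finset.sum_congr rfl (g := fun _ => lam), Finset.sum_const, Finset.card_erase_of_mem (Finset.mem_univ _),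
        Finset.card_univ, smul_eq_mul]
      intro x' hx'
      exact hC.pair x x' (Finset.ne_of_mem_erase hx').symm
  have h4 : 1 ≤ Fintype.card X := Fintype.card_pos_iff.2 ⟨x⟩
  have h5 : k * k = k + (Fintype.card X - 1) * lam := by rw [← h2, ← h1, h3]
  have h6 : (k : ℤ) * k = k + ((Fintype.card X : ℤ) - 1) * lam := by
    have := congrArg (fun n : ℕ => (n : ℤ)) h5
    push_cast [Nat.cast_sub h4] at this
    exact this
  rw [pow_two, h6]
  ring

end Pool.Agent.Helper67.CR
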