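import Mathlib
import Pool.Agent.Helper17.CR.Stmts2
import Pool.Agent.Helper80.CR.CASEA

/-!
Module CASEA2 of the crew project on MP_c38931_co: case A with a representation which is not
trivial on the abelian normal subgroup.
-/

set_option autoImplicit false

namespace Pool.Agent.Helper67.CR

open Pool.Agent.Helper17.CR Pool.Agent.Helper80.CR

universe u

theorem st_CASEA2 (h1 : ST_WT2.{u}) : ST_CASEA2.{u} := by
  intro G _ _ p _ V _ _ _ ρ q M hq hqp hM hMq hMb hab Pi hPi
  obtain ⟨K, _, Om, hcard, hOm, hconj, χ, hχ, x0, hx0, hne⟩ :=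
    h1 G p V ρ q M hq hqp hM hMq hMb hab
  let act : MulAction G (G → K) := casea_act G K
  have hsm : ∀ (g : G) (f : G → K) (x : G), (g • f) x = f (g⁻¹ * x * g) := fun _ _ _ => rfl
  let S := MulAction.stabilizer G χ
  have hOrb : MulAction.orbit G χ ⊆ (Om : Set (G → K)) := by
    rintro f ⟨g, rfl⟩
    have h := hconj χ hχ g⁻¹
    have h2 : (fun x => χ (g⁻¹ * x * g⁻¹⁻¹)) = g • χ := by
      funext x
      rw [hsm, inv_inv]
    rw [h2] at h
    exact h
  have hidx : S.index = (MulAction.orbit G χ).ncard := MulAction.index_stabilizer G χ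
  have hle : S.index ≤ Om.card := by
    rw [hidx, ← Set.ncard_coe_finset]
    exact Set.ncard_le_ncard hOrb (Finset.finite_toSet Om)
  have hpos : 0 < S.index := Nat.pos_of_ne_zero Subgroup.index_ne_zero_of_finite
  refine ⟨S.index, hpos, le_trans (Nat.pow_le_pow_right (Fact.out : p.Prime).pos hle) hcard, ?_⟩
  intro l j hl hPl hdvd
  have hnd : ¬ l ∣ Nat.card S := by
    intro hd
    have : Fact l.Prime := ⟨hl⟩
    obtain ⟨g, hg⟩ := exists_prime_orderOf_dvd_card' (G := S) l hd
    have hg' : orderOf (g : G) = l := by rw [Subgroup.orderOf_coe, hg]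
    have hstab : (g : G) • χ = χ := g.2
    have hst : ∀ x, χ ((g : G) * x * (g : G)⁻¹) = χ x := by
      intro x
      have h := congrFun hstab ((g : G) * x * (g : G)⁻¹)
      rw [hsm] at h
      rw [← h]
      congr 1
      group
    have hall := casea_one M χ (hOm χ hχ).1 (hOm χ hχ).2.1 (g : G)
      (hPi (g : G) (by rw [hg']; exact hl) (by rw [hg']; exact hPl)) hst x0 hx0
    exact hne hall
  rw [← Subgroup.card_mul_index S] at hdvd
  exact (Nat.Coprime.pow_left j ((Nat.Prime.coprime_iff_not_dvd hl).mpr hnd)).dvd_of_dvd_mul_left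
    hdvd

end Pool.Agent.Helper67.CR
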