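import Pool.Agent.Helper17.CR.Stmts

set_option autoImplicit false

namespace Pool.Agent.Helper67.CR

open Pool.Agent.Helper17.CR Finset

universe u

theorem st_ROOT : ST_ROOT.{u} := by
  intro T _ _ M L a hM x hx
  have hx' : x ∈ spectrum ℂ M := by
    rw [Matrix.mem_spectrum_iff_isRoot_charpoly]
    exact (Polynomial.mem_roots'.1 hx).2
  have h2 := spectrum.pow_mem_pow M L hx'
  rw [hM] at h2
  by_contra hne
  apply h2
  have h3 : (algebraMap ℂ (Matrix T T ℂ)) (x ^ L) - a • (1 : Matrix T T ℂ)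
      = algebraMap ℂ (Matrix T T ℂ) (x ^ L - a) := by
    rw [map_sub, Algebra.algebraMap_eq_smul_one, Algebra.algebraMap_eq_smul_one]
  rw [spectrum.mem_resolventSet_iff, h3]
  exact (IsUnit.mk0 _ (sub_ne_zero.2 hne)).map _

end Pool.Agent.Helper67.CR
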